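import Pool.Agent.J6H55.FM.Stm
import Pool.Agent.J6H55.LE.Ext

/-!
# FM-CST: extension of the base
-/

set_option autoImplicit false
set_option linter.overlappingInstances false

namespace Pool.Agent.J6H74.FMCst

open FF Polynomial
open Pool.Agent.J6H55.FM
open Pool.Agent.Q103.RP (loc mem_loc exists_hom)
open Pool.Agent.J6H55.LE (ext_hom)
open Pool.Agent.Q53.EC (alg_mono)
open scoped IntermediateField.algebraAdjoinAdjoin

/-! ## Weighted homogeneous polynomials -/

theorem aeval_weight {σ E : Type} [Field E] [Algebra ℂ E] {w : σ → ℕ} {F : MvPolynomial σ ℂ} {e : ℕ}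
    (hF : MvPolynomial.IsWeightedHomogeneous w F e) (l : E) (x y : σ → E)
    (hxy : ∀ i, y i = l ^ w i * x i) :
    MvPolynomial.aeval y F = l ^ e * MvPolynomial.aeval x F := by
  classical
  rw [MvPolynomial.aeval_def, MvPolynomial.aeval_def, MvPolynomial.eval₂_eq, MvPolynomial.eval₂_eq,
    Finset.mul_sum]
  apply Finset.sum_congr rfl
  intro d hd
  have h1 := hF (MvPolynomial.mem_support_iff.1 hd)
  rw [Finsupp.weight_apply, Finsupp.sum] at h1
  have h2 : ∏ i ∈ d.support, y i ^ d i = l ^ e * ∏ i ∈ d.support, x i ^ d i := by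
    rw [← h1, ← Finset.prod_pow_eq_pow_sum, ← Finset.prod_mul_distrib]
    apply Finset.prod_congr rfl
    intro i _
    rw [hxy, mul_pow, ← pow_mul, smul_eq_mul, mul_comm (w i)]
  rw [h2]
  ring

theorem rv_scale {β : Type} {M : ℕ} {E : Type} [Field E] [Algebra ℂ E]
    {F : MvPolynomial (β ⊕ Fin (M + 1)) ℂ} {e : ℕ}
    (hF : MvPolynomial.IsWeightedHomogeneous
      (Sum.elim (fun _ => 0) (fun _ => 1) : β ⊕ Fin (M + 1) → ℕ) F e) (b : β → E)
    (z : Fin (M + 1) → E) {j : Fin (M + 1)} (hj : z j ≠ 0) :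
    rv b z F = z j ^ e * rv b (fun i => z i / z j) F := by
  unfold rv
  refine aeval_weight hF (z j) _ _ ?_
  rintro (i | i)
  · simp
  · simp only [Sum.elim_inr, pow_one]
    field_simp

/-- homogenization -/
theorem exists_hz {β : Type} {M : ℕ} (j : Fin (M + 1)) (G : MvPolynomial (β ⊕ Fin (M + 1)) ℂ) :
    ∃ (F : MvPolynomial (β ⊕ Fin (M + 1)) ℂ) (e : ℕ), MvPolynomial.IsWeightedHomogeneous
      (Sum.elim (fun _ => 0) (fun _ => 1) : β ⊕ Fin (M + 1) → ℕ) F e ∧
      ∀ (E : Type) [Field E] [Algebra ℂ E] (b : β → E) (z : Fin (M + 1) → E), z j ≠ 0 →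
        rv b z F = z j ^ e * rv b (fun i => z i / z j) G := by
  classical
  have hX : ∀ i : β ⊕ Fin (M + 1), MvPolynomial.IsWeightedHomogeneous
      (Sum.elim (fun _ => 0) (fun _ => 1) : β ⊕ Fin (M + 1) → ℕ) (MvPolynomial.X i : MvPolynomial
        (β ⊕ Fin (M + 1)) ℂ) ((Sum.elim (fun _ => 0) (fun _ => 1) : β ⊕ Fin (M + 1) → ℕ) i) :=
    fun i => MvPolynomial.isWeightedHomogeneous_X ℂ _ i
  induction G using MvPolynomial.induction_on with
  | C a =>
    refine ⟨MvPolynomial.C a, 0, MvPolynomial.isWeightedHomogeneous_C _ a, ?_⟩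
    intro E _ _ b z hz
    unfold rv
    simp
  | add G₁ G₂ h₁ h₂ =>
    obtain ⟨F₁, e₁, hF₁, h₁⟩ := h₁
    obtain ⟨F₂, e₂, hF₂, h₂⟩ := h₂
    have hXj := hX (Sum.inr j)
    refine ⟨F₁ * MvPolynomial.X (Sum.inr j) ^ e₂ + F₂ * MvPolynomial.X (Sum.inr j) ^ e₁, e₁ + e₂,
      ?_, ?_⟩
    · have a1 := hF₁.mul (hXj.pow e₂)
      have a2 := hF₂.mul (hXj.pow e₁)
      have b1 : e₁ + e₂ • ((Sum.elim (fun _ => 0) (fun _ => 1) : β ⊕ Fin (M + 1) → ℕ) (Sum.inr j)) =
        e₁ + e₂ := by simp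
      have b2 : e₂ + e₁ • ((Sum.elim (fun _ => 0) (fun _ => 1) : β ⊕ Fin (M + 1) → ℕ) (Sum.inr j)) =
        e₁ + e₂ := by simp [add_comm]
      rw [b1] at a1
      rw [b2] at a2
      exact a1.add a2
    · intro E _ _ b z hz
      have a1 := h₁ E b z hz
      have a2 := h₂ E b z hz
      unfold rv at a1 a2 ⊢
      rw [map_add, map_add, map_mul, map_mul, map_pow, map_pow, MvPolynomial.aeval_X, a1, a2,
        Sum.elim_inr]
      ring
  | mul_X G i h =>
    obtain ⟨F, e, hF, h⟩ := h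
    refine ⟨F * MvPolynomial.X i, _, hF.mul (hX i), ?_⟩
    intro E _ _ b z hz
    have a1 := h E b z hz
    unfold rv at a1 ⊢
    rw [map_mul, map_mul, MvPolynomial.aeval_X, MvPolynomial.aeval_X, a1]
    rcases i with i | i
    · simp only [Sum.elim_inl, add_zero]
      ring
    · simp only [Sum.elim_inr]
      rw [pow_add, pow_one]
      field_simp

/-! ## Algebra -/

section

variable {K : Type} [Field K] [Algebra ℂ K] {σ : Type}

theorem mem_adj (u : σ → K) (y : Algebra.adjoin ℂ (Set.range u)) : ∃ Q : MvPolynomial σ ℂ,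
    MvPolynomial.aeval u Q = (y : K) :=
  (Algebra.adjoin_range_eq_range_aeval ℂ u).le y.2

theorem exists_mult (u : σ → K) {s : K}
    (hs : IsAlgebraic (IntermediateField.adjoin ℂ (Set.range u)) s) :
    ∃ Q : MvPolynomial σ ℂ, MvPolynomial.aeval u Q ≠ 0 ∧
      IsIntegral (Algebra.adjoin ℂ (Set.range u)) (MvPolynomial.aeval u Q * s) := by
  have h1 : IsAlgebraic (Algebra.adjoin ℂ (Set.range u)) s :=
    (IsFractionRing.isAlgebraic_iff (Algebra.adjoin ℂ (Set.range u))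
      (IntermediateField.adjoin ℂ (Set.range u)) K).2 hs
  obtain ⟨y, hy, hys⟩ := h1.exists_integral_multiple
  obtain ⟨Q, hQ⟩ := mem_adj u y
  refine ⟨Q, ?_, ?_⟩
  · rw [hQ]
    intro h0
    exact hy (Subtype.ext h0)
  · rw [hQ]
    rw [Algebra.smul_def] at hys
    exact hys

theorem int_mono {S₁ S₂ : Subalgebra ℂ K} (h : S₁ ≤ S₂) {a : K} (ha : IsIntegral S₁ a) :
    IsIntegral S₂ a := by
  obtain ⟨p, hp, hps⟩ := ha
  refine ⟨p.map (Subalgebra.inclusion h).toRingHom, hp.map _, ?_⟩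
  rw [eval₂_map]
  exact hps

theorem aeval_mem_loc (u : σ → K) (H : MvPolynomial σ ℂ) (hH : MvPolynomial.aeval u H ≠ 0)
    (G : MvPolynomial σ ℂ) : MvPolynomial.aeval u G ∈ loc u H hH :=
  mem_loc.2 ⟨G, 0, by rw [pow_zero, mul_one]⟩

theorem adjoin_le_loc (u : σ → K) (H : MvPolynomial σ ℂ) (hH : MvPolynomial.aeval u H ≠ 0) :
    Algebra.adjoin ℂ (Set.range u) ≤ loc u H hH := by
  rw [Algebra.adjoin_le_iff]
  rintro _ ⟨i, rfl⟩
  have h4 := aeval_mem_loc u H hH (MvPolynomial.X i)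
  rwa [MvPolynomial.aeval_X] at h4

theorem int_loc {u : σ → K} {H : MvPolynomial σ ℂ} (hH : MvPolynomial.aeval u H ≠ 0)
    {Q : MvPolynomial σ ℂ} (hQ : Q ∣ H) {s : K}
    (hs : IsIntegral (Algebra.adjoin ℂ (Set.range u)) (MvPolynomial.aeval u Q * s)) :
    IsIntegral (loc u H hH) s := by
  obtain ⟨Q', hQ'⟩ := hQ
  have hQs : MvPolynomial.aeval u Q ≠ 0 := by
    intro h0
    apply hH
    rw [hQ', map_mul, h0, zero_mul]
  have h2 : (MvPolynomial.aeval u Q)⁻¹ ∈ loc u H hH := by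
    refine mem_loc.2 ⟨Q', 1, ?_⟩
    rw [pow_one, hQ', map_mul, inv_mul_cancel_left₀ hQs]
  have h3 : IsIntegral (loc u H hH) (MvPolynomial.aeval u Q * s) := int_mono (adjoin_le_loc u H hH) hs
  have h4 : s = algebraMap (loc u H hH) K ⟨_, h2⟩ * (MvPolynomial.aeval u Q * s) := by
    change s = (MvPolynomial.aeval u Q)⁻¹ * (MvPolynomial.aeval u Q * s)
    rw [inv_mul_cancel_left₀ hQs]
  rw [h4]
  exact isIntegral_algebraMap.mul h3

end

/-- a homomorphism on the elements integral over `ℂ[b]` -/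
theorem int_const {K : Type} [Field K] [Algebra ℂ K] {β : Type} (b : β → K) (S : Subalgebra ℂ K)
    {Ω : Type} [Field Ω] [Algebra ℂ Ω] (ψ : S →+* Ω)
    (hψ : ∀ a : ℂ, ψ (algebraMap ℂ S a) = algebraMap ℂ Ω a)
    (hb : ∀ i, b i ∈ S) (c : β → ℂ) (hc : ∀ i, ψ ⟨b i, hb i⟩ = algebraMap ℂ Ω (c i))
    (s : S) (hs : IsIntegral (Algebra.adjoin ℂ (Set.range b)) (s : K)) :
    ∃ t : ℂ, algebraMap ℂ Ω t = ψ s := by
  classical
  obtain ⟨P, hP, hPs⟩ := hs
  -- the coefficients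
  have hle : Algebra.adjoin ℂ (Set.range b) ≤ S := by
    rw [Algebra.adjoin_le_iff]
    rintro _ ⟨i, rfl⟩
    exact hb i
  let ψ' : S →ₐ[ℂ] Ω := { toRingHom := ψ, commutes' := hψ }
  have hconst : ∀ y : Algebra.adjoin ℂ (Set.range b), ∃ t : ℂ,
      algebraMap ℂ Ω t = ψ' (Subalgebra.inclusion hle y) := by
    intro y
    obtain ⟨Q, hQ⟩ := mem_adj b y
    refine ⟨MvPolynomial.eval c Q, ?_⟩
    have h1 : Subalgebra.inclusion hle y =
        MvPolynomial.aeval (fun i => (⟨b i, hb i⟩ : S)) Q := by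
      apply Subtype.ext
      have h2 := MvPolynomial.comp_aeval_apply (fun i => (⟨b i, hb i⟩ : S)) S.val Q
      change (y : K) = S.val _
      rw [h2, ← hQ]
      rfl
    rw [h1]
    have h3 := MvPolynomial.comp_aeval_apply (fun i => (⟨b i, hb i⟩ : S)) ψ' Q
    rw [h3]
    have h4 : (fun i => ψ' (⟨b i, hb i⟩ : S)) = fun i => algebraMap ℂ Ω (c i) := funext hc
    rw [h4]
    have h5 := MvPolynomial.comp_aeval_apply c (Algebra.ofId ℂ Ω) Q
    have h6 : MvPolynomial.aeval c Q = MvPolynomial.eval c Q := rfl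
    rw [h6] at h5
    exact h5
  let θ : Algebra.adjoin ℂ (Set.range b) →+* Ω :=
    ψ.comp (Subalgebra.inclusion hle).toRingHom
  have hmap : ∃ P' : ℂ[X], P'.map (algebraMap ℂ Ω) = P.map θ ∧ P'.degree = (P.map θ).degree ∧
      P'.Monic := by
    have h1 : P.map θ ∈ Polynomial.lifts (algebraMap ℂ Ω) := by
      rw [Polynomial.lifts_iff_coeff_lifts]
      intro n
      rw [coeff_map]
      obtain ⟨t, ht⟩ := hconst (P.coeff n)
      exact ⟨t, ht⟩
    exact Polynomial.lifts_and_degree_eq_and_monic h1 (hP.map θ)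
  obtain ⟨P', hP'1, -, hP'2⟩ := hmap
  have hroot : Polynomial.aeval (ψ s) P' = 0 := by
    rw [Polynomial.aeval_def, ← Polynomial.eval_map, hP'1, Polynomial.eval_map]
    have h1 := hom_eval₂ P (Subalgebra.inclusion hle).toRingHom ψ s
    have h2 : eval₂ (Subalgebra.inclusion hle).toRingHom s P = 0 := by
      apply Subtype.ext
      have h3 := hom_eval₂ P (Subalgebra.inclusion hle).toRingHom S.val.toRingHom s
      change S.val.toRingHom _ = 0
      rw [h3]
      exact hPs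
    rw [h2, map_zero] at h1
    exact h1.symm
  have hint : IsIntegral ℂ (ψ s) := ⟨P', hP'2, hroot⟩
  exact minpoly.mem_range_of_degree_eq_one ℂ (ψ s)
    (IsAlgClosed.degree_eq_one_of_irreducible ℂ (minpoly.irreducible hint))

theorem cst_main : S_cst := by
  classical
  intro β _ M m L K _ _ _ _ ι b z θ hg hθ hR
  obtain ⟨R', A, ⟨e', hR'w⟩, hR'0, hR'⟩ := hR
  obtain ⟨j₀, hj₀'⟩ := Function.ne_iff.1 hg.ne
  have hj₀ : z j₀ ≠ 0 := hj₀'
  have hj₀K : ι (z j₀) ≠ 0 := (map_ne_zero_iff ι ι.injective).2 hj₀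
  -- the coordinates
  obtain ⟨u, hu⟩ : ∃ u : β ⊕ Fin (M + 1) → K, u = Sum.elim (fun i => ι (b i))
    (fun j => ι (z j) / ι (z j₀)) := ⟨_, rfl⟩
  have hub : ∀ i, u (Sum.inl i) = ι (b i) := fun i => by rw [hu]; rfl
  have huz : ∀ j, u (Sum.inr j) = ι (z j) / ι (z j₀) := fun j => by rw [hu]; rfl
  have hval : ∀ G : MvPolynomial (β ⊕ Fin (M + 1)) ℂ,
      MvPolynomial.aeval u G = ι (rv b (fun j => z j / z j₀) G) := by
    intro G
    unfold rv
    have h1 := MvPolynomial.comp_aeval_apply (Sum.elim b (fun j => z j / z j₀)) ι G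
    rw [h1]
    have h2 : (fun i => ι (Sum.elim b (fun j => z j / z j₀) i)) = u := by
      funext i
      rcases i with i | j
      · rw [hub]; rfl
      · rw [huz, ← map_div₀]; rfl
    rw [h2]
  -- the value of R'
  obtain ⟨v, hv⟩ : ∃ v : (β ⊕ Fin m) ⊕ Fin (M + 1) → K, v = Sum.elim
    (Sum.elim (fun i => ι (b i)) θ) (fun j => ι (z j) / ι (z j₀)) := ⟨_, rfl⟩
  obtain ⟨ρ, hρ⟩ : ∃ ρ : K, ρ = MvPolynomial.aeval v R' := ⟨_, rfl⟩
  have hρ0 : ρ ≠ 0 := by
    intro h0
    apply hR'0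
    rw [rv_scale hR'w _ _ (j := j₀) hj₀K]
    unfold rv
    rw [← hv, ← hρ, h0, mul_zero]
  -- algebraicity
  have hθu : ∀ i, IsAlgebraic (IntermediateField.adjoin ℂ (Set.range u)) (θ i) := by
    intro i
    refine alg_mono ?_ (hθ i)
    apply IntermediateField.adjoin.mono
    rintro _ ⟨i, rfl⟩
    exact ⟨Sum.inl i, hub i⟩
  have hρalg : IsAlgebraic (IntermediateField.adjoin ℂ (Set.range u)) ρ⁻¹ := by
    obtain ⟨F, hF⟩ : ∃ F, F = algebraicClosure (IntermediateField.adjoin ℂ (Set.range u)) K := ⟨_, rfl⟩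
    have hmem : ∀ i, v i ∈ F := by
      intro i
      rw [hF, mem_algebraicClosure_iff]
      rw [hv]
      rcases i with (i | i) | j
      · have h1 : ι (b i) ∈ IntermediateField.adjoin ℂ (Set.range u) :=
          IntermediateField.subset_adjoin ℂ _ ⟨Sum.inl i, hub i⟩
        exact isAlgebraic_algebraMap (⟨_, h1⟩ : IntermediateField.adjoin ℂ (Set.range u))
      · exact hθu i
      · have h1 : ι (z j) / ι (z j₀) ∈ IntermediateField.adjoin ℂ (Set.range u) :=
          IntermediateField.subset_adjoin ℂ _ ⟨Sum.inr j, huz j⟩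
        exact isAlgebraic_algebraMap (⟨_, h1⟩ : IntermediateField.adjoin ℂ (Set.range u))
    have hρF : ρ ∈ F := by
      have h1 : ρ ∈ (F.toSubalgebra.restrictScalars ℂ) := by
        rw [hρ]
        have h2 := MvPolynomial.comp_aeval_apply (fun i => (⟨v i, hmem i⟩ :
          (F.toSubalgebra.restrictScalars ℂ))) (F.toSubalgebra.restrictScalars ℂ).val R'
        have h3 : (fun i => (F.toSubalgebra.restrictScalars ℂ).val (⟨v i, hmem i⟩ :
          (F.toSubalgebra.restrictScalars ℂ))) = v := rfl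
        rw [h3] at h2
        rw [← h2]
        exact Subtype.property _
      exact h1
    have h4 : ρ⁻¹ ∈ F := inv_mem hρF
    rw [hF, mem_algebraicClosure_iff] at h4
    exact h4
  choose g hg0 hgi using fun i => exists_mult (fun i => ι (b i)) (hθ i)
  obtain ⟨Q, hQ0, hQi⟩ := exists_mult u hρalg
  obtain ⟨G, hG⟩ : ∃ G : MvPolynomial (β ⊕ Fin (M + 1)) ℂ,
    G = Q * ∏ i, MvPolynomial.rename Sum.inl (g i) := ⟨_, rfl⟩
  have hren : ∀ (E : Type) [Field E] [Algebra ℂ E] (x : β ⊕ Fin (M + 1) → E)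
      (P : MvPolynomial β ℂ), MvPolynomial.aeval x (MvPolynomial.rename Sum.inl P) =
        MvPolynomial.aeval (fun i => x (Sum.inl i)) P := by
    intro E _ _ x P
    rw [MvPolynomial.aeval_rename]
    rfl
  have hub' : (fun i => u (Sum.inl i)) = fun i => ι (b i) := funext hub
  have hG0 : MvPolynomial.aeval u G ≠ 0 := by
    rw [hG, map_mul, map_prod]
    refine mul_ne_zero hQ0 (Finset.prod_ne_zero_iff.2 fun i _ => ?_)
    rw [hren, hub']
    exact hg0 i
  obtain ⟨T, hT⟩ : ∃ T, T = loc u G hG0 := ⟨_, rfl⟩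
  have hdvd : ∀ i, MvPolynomial.rename Sum.inl (g i) ∣ G := by
    intro i
    rw [hG]
    exact Dvd.dvd.mul_left (Finset.dvd_prod_of_mem _ (Finset.mem_univ i)) Q
  have hadj : Algebra.adjoin ℂ (Set.range fun i => ι (b i)) ≤ Algebra.adjoin ℂ (Set.range u) := by
    apply Algebra.adjoin_mono
    rintro _ ⟨i, rfl⟩
    exact ⟨Sum.inl i, hub i⟩
  have hθT : ∀ i, IsIntegral (loc u G hG0) (θ i) := by
    intro i
    refine int_loc hG0 (hdvd i) ?_
    rw [hren, hub']
    exact int_mono hadj (hgi i)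
  have hρT : IsIntegral (loc u G hG0) ρ⁻¹ := int_loc hG0 (by rw [hG]; exact dvd_mul_right _ _) hQi
  -- the form
  obtain ⟨H, e, hHw, hH⟩ := exists_hz j₀ G
  refine ⟨MvPolynomial.X (Sum.inr j₀) * H, A, ⟨_, (MvPolynomial.isWeightedHomogeneous_X ℂ _
    (Sum.inr j₀)).mul hHw⟩, ?_, ?_⟩
  · have h1 := hH L b z hj₀
    unfold rv at h1 ⊢
    rw [map_mul, MvPolynomial.aeval_X, h1]
    refine mul_ne_zero hj₀ (mul_ne_zero (pow_ne_zero _ hj₀) ?_)
    intro h0
    apply hG0
    rw [hval]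
    unfold rv
    rw [h0, map_zero]
  intro E _ _ _ c f hf hfR
  have hfR' : f j₀ ≠ 0 ∧ rv (cst E c) f H ≠ 0 := by
    unfold rv at hfR ⊢
    rw [map_mul, MvPolynomial.aeval_X] at hfR
    exact ⟨left_ne_zero_of_mul hfR, right_ne_zero_of_mul hfR⟩
  obtain ⟨hfj, hfH⟩ := hfR'
  rw [hH E _ _ hfj] at hfH
  have hfG : rv (cst E c) (fun j => f j / f j₀) G ≠ 0 := right_ne_zero_of_mul hfH
  -- the homomorphism
  obtain ⟨φ, hφ⟩ := exists_hom u G hG0 (Sum.elim (cst E c) (fun j => f j / f j₀)) (by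
    intro P hP
    obtain ⟨P', e₁, hP'w, hP'⟩ := exists_hz j₀ P
    have h1 : rv b z P' = 0 := by
      rw [hP' L b z hj₀]
      rw [hval] at hP
      rw [(map_eq_zero_iff ι ι.injective).1 hP, mul_zero]
    have h2 := hf.2 P' ⟨e₁, hP'w⟩ h1
    rw [hP' E _ _ hfj] at h2
    exact (mul_eq_zero.1 h2).resolve_left (pow_ne_zero _ hfj)) hfG
  obtain ⟨ψ, hψ⟩ := ext_hom (C := loc u G hG0) (A := integralClosure (loc u G hG0) K)
    (fun a b hab => Subtype.ext (congrArg (fun y : integralClosure (loc u G hG0) K => (y : K)) hab))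
    ((algebraMap E (AlgebraicClosure E)).comp φ.toRingHom)
  obtain ⟨S, hS⟩ : ∃ S : Subalgebra ℂ K, S = (integralClosure (loc u G hG0) K).restrictScalars ℂ :=
    ⟨_, rfl⟩
  have hmemS : ∀ y : K, y ∈ S ↔ IsIntegral (loc u G hG0) y := by
    intro y
    rw [hS]
    exact Iff.rfl
  have hST : ∀ y : K, y ∈ loc u G hG0 → y ∈ S := fun y hy => (hmemS y).2
    (isIntegral_algebraMap (x := (⟨y, hy⟩ : loc u G hG0)))
  obtain ⟨ψ', hψ'⟩ : ∃ ψ' : S →+* AlgebraicClosure E, ∀ (y : K) (h : y ∈ loc u G hG0),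
      ψ' ⟨y, hST y h⟩ = algebraMap E (AlgebraicClosure E) (φ ⟨y, h⟩) := by
    subst hS
    exact ⟨ψ, fun y h => hψ ⟨y, h⟩⟩
  have hψc : ∀ a : ℂ, ψ' (algebraMap ℂ S a) = algebraMap ℂ (AlgebraicClosure E) a := by
    intro a
    have h1 := hψ' (algebraMap ℂ K a) (Subalgebra.algebraMap_mem _ a)
    have h2 : φ ⟨algebraMap ℂ K a, Subalgebra.algebraMap_mem _ a⟩ = algebraMap ℂ E a :=
      φ.commutes a
    rw [h2, ← IsScalarTower.algebraMap_apply ℂ E (AlgebraicClosure E)] at h1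
    exact h1
  have hψu : ∀ G' : MvPolynomial (β ⊕ Fin (M + 1)) ℂ,
      ψ' ⟨MvPolynomial.aeval u G', hST _ (aeval_mem_loc u G hG0 G')⟩ =
        algebraMap E (AlgebraicClosure E)
          (MvPolynomial.aeval (Sum.elim (cst E c) (fun j => f j / f j₀)) G') := by
    intro G'
    rw [hψ' _ (aeval_mem_loc u G hG0 G'), hφ]
  have hcE : ∀ a : ℂ, algebraMap E (AlgebraicClosure E) (algebraMap ℂ E a) =
      algebraMap ℂ (AlgebraicClosure E) a := fun a =>
    (IsScalarTower.algebraMap_apply ℂ E (AlgebraicClosure E) a).symm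
  have hbS : ∀ i, ι (b i) ∈ S := fun i => by
    have h1 := hST _ (aeval_mem_loc u G hG0 (MvPolynomial.X (Sum.inl i)))
    rw [MvPolynomial.aeval_X, hub] at h1
    exact h1
  have hzS : ∀ j, ι (z j) / ι (z j₀) ∈ S := fun j => by
    have h1 := hST _ (aeval_mem_loc u G hG0 (MvPolynomial.X (Sum.inr j)))
    rw [MvPolynomial.aeval_X, huz] at h1
    exact h1
  have hψb : ∀ i, ψ' ⟨ι (b i), hbS i⟩ = algebraMap ℂ (AlgebraicClosure E) (c i) := by
    intro i
    have h1 := hψu (MvPolynomial.X (Sum.inl i))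
    rw [MvPolynomial.aeval_X (Sum.elim (cst E c) (fun j => f j / f j₀)), Sum.elim_inl] at h1
    have h2 : (⟨MvPolynomial.aeval u (MvPolynomial.X (Sum.inl i)), hST _ (aeval_mem_loc u G hG0
        (MvPolynomial.X (Sum.inl i)))⟩ : S) = ⟨ι (b i), hbS i⟩ := by
      apply Subtype.ext
      change MvPolynomial.aeval u (MvPolynomial.X (Sum.inl i)) = ι (b i)
      rw [MvPolynomial.aeval_X, hub]
    rw [h2] at h1
    rw [h1]
    exact hcE (c i)
  have hψz : ∀ j, ψ' ⟨ι (z j) / ι (z j₀), hzS j⟩ =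
      algebraMap E (AlgebraicClosure E) (f j / f j₀) := by
    intro j
    have h1 := hψu (MvPolynomial.X (Sum.inr j))
    rw [MvPolynomial.aeval_X (Sum.elim (cst E c) (fun j => f j / f j₀)), Sum.elim_inr] at h1
    have h2 : (⟨MvPolynomial.aeval u (MvPolynomial.X (Sum.inr j)), hST _ (aeval_mem_loc u G hG0
        (MvPolynomial.X (Sum.inr j)))⟩ : S) = ⟨ι (z j) / ι (z j₀), hzS j⟩ := by
      apply Subtype.ext
      change MvPolynomial.aeval u (MvPolynomial.X (Sum.inr j)) = ι (z j) / ι (z j₀)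
      rw [MvPolynomial.aeval_X, huz]
    rw [h2] at h1
    exact h1
  have hθS : ∀ i, θ i ∈ S := fun i => (hmemS _).2 (hθT i)
  -- the values of θ are constants
  have ht : ∀ i, ∃ t : ℂ, algebraMap ℂ (AlgebraicClosure E) t = ψ' ⟨θ i, hθS i⟩ := by
    intro i
    have hgS : MvPolynomial.aeval (fun i => ι (b i)) (g i) ∈ S := by
      have h1 := hST _ (aeval_mem_loc u G hG0 (MvPolynomial.rename Sum.inl (g i)))
      rw [hren, hub'] at h1
      exact h1
    obtain ⟨t, ht⟩ := int_const (fun i => ι (b i)) S ψ' hψc hbS c hψb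
      (⟨_, hgS⟩ * ⟨θ i, hθS i⟩) (hgi i)
    obtain ⟨r, hr⟩ := int_const (fun i => ι (b i)) S ψ' hψc hbS c hψb ⟨_, hgS⟩ (by
      obtain ⟨y, hy⟩ : ∃ y : Algebra.adjoin ℂ (Set.range fun i => ι (b i)),
          (y : K) = MvPolynomial.aeval (fun i => ι (b i)) (g i) :=
        ⟨⟨_, (Algebra.adjoin_range_eq_range_aeval ℂ (fun i => ι (b i))).symm.le ⟨g i, rfl⟩⟩, rfl⟩
      change IsIntegral _ (MvPolynomial.aeval (fun i => ι (b i)) (g i))
      rw [← hy]
      exact isIntegral_algebraMap)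
    have hr0 : r ≠ 0 := by
      rintro rfl
      rw [map_zero] at hr
      have h1 := hψu (MvPolynomial.rename Sum.inl (g i))
      have h2 : (⟨MvPolynomial.aeval u (MvPolynomial.rename Sum.inl (g i)), hST _ (aeval_mem_loc u G
          hG0 (MvPolynomial.rename Sum.inl (g i)))⟩ : S) =
          ⟨MvPolynomial.aeval (fun i => ι (b i)) (g i), hgS⟩ := by
        apply Subtype.ext
        change MvPolynomial.aeval u (MvPolynomial.rename Sum.inl (g i)) = _
        rw [hren, hub']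
      rw [h2, ← hr] at h1
      have h3 := (map_eq_zero_iff _ (algebraMap E (AlgebraicClosure E)).injective).1 h1.symm
      obtain ⟨G'', hG''⟩ := hdvd i
      apply hfG
      unfold rv
      rw [hG'', map_mul, h3, zero_mul]
    refine ⟨t / r, ?_⟩
    rw [map_mul, ← hr] at ht
    rw [map_div₀, ht, mul_comm, mul_div_assoc, div_self, mul_one]
    exact (map_ne_zero_iff _ (algebraMap ℂ (AlgebraicClosure E)).injective).2 hr0
  choose t ht using ht
  -- the values of polynomials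
  have hvS : ∀ i, v i ∈ S := by
    intro i
    rw [hv]
    rcases i with (i | i) | j
    · exact hbS i
    · exact hθS i
    · exact hzS j
  let ψa : S →ₐ[ℂ] AlgebraicClosure E := { toRingHom := ψ', commutes' := hψc }
  have hev : ∀ (P : MvPolynomial ((β ⊕ Fin m) ⊕ Fin (M + 1)) ℂ) (s : S),
      (s : K) = MvPolynomial.aeval v P → ψ' s = algebraMap E (AlgebraicClosure E)
        (rv (cst E (Sum.elim c t)) (fun j => f j / f j₀) P) := by
    intro P s hs
    have h1 : s = MvPolynomial.aeval (fun i => (⟨v i, hvS i⟩ : S)) P := by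
      apply Subtype.ext
      have h2 := MvPolynomial.comp_aeval_apply (fun i => (⟨v i, hvS i⟩ : S)) S.val P
      change (s : K) = S.val _
      rw [h2, hs]
      rfl
    have h3 := MvPolynomial.comp_aeval_apply (fun i => (⟨v i, hvS i⟩ : S)) ψa P
    rw [← h1] at h3
    change ψa s = _
    rw [h3]
    unfold rv
    have h4 := MvPolynomial.comp_aeval_apply (Sum.elim (cst E (Sum.elim c t))
      (fun j => f j / f j₀)) (IsScalarTower.toAlgHom ℂ E (AlgebraicClosure E)) P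
    have h5 : (IsScalarTower.toAlgHom ℂ E (AlgebraicClosure E)) (MvPolynomial.aeval
      (Sum.elim (cst E (Sum.elim c t)) (fun j => f j / f j₀)) P) = algebraMap E
      (AlgebraicClosure E) (MvPolynomial.aeval
      (Sum.elim (cst E (Sum.elim c t)) (fun j => f j / f j₀)) P) := rfl
    rw [← h5, h4]
    congr 2
    funext i
    rcases i with (i | i) | j
    · have h6 : (⟨v (Sum.inl (Sum.inl i)), hvS _⟩ : S) = ⟨ι (b i), hbS i⟩ := by
        apply Subtype.ext
        change v _ = _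
        rw [hv]
        rfl
      rw [h6]
      exact (hψb i).trans (hcE (c i)).symm
    · have h6 : (⟨v (Sum.inl (Sum.inr i)), hvS _⟩ : S) = ⟨θ i, hθS i⟩ := by
        apply Subtype.ext
        change v _ = _
        rw [hv]
        rfl
      rw [h6]
      exact (ht i).symm.trans (hcE (t i)).symm
    · have h6 : (⟨v (Sum.inr j), hvS _⟩ : S) = ⟨ι (z j) / ι (z j₀), hzS j⟩ := by
        apply Subtype.ext
        change v _ = _
        rw [hv]
        rfl
      rw [h6]
      exact hψz j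
  refine hR' E (Sum.elim c t) f ⟨hf.1, ?_⟩ ?_
  · rintro P ⟨e₂, hP⟩ hP0
    rw [rv_scale hP _ _ (j := j₀) hj₀K] at hP0
    have h1 := (mul_eq_zero.1 hP0).resolve_left (pow_ne_zero _ hj₀K)
    have h2 := hev P 0 (by
      rw [hv]
      exact h1.symm)
    rw [map_zero] at h2
    have h3 := (map_eq_zero_iff _ (algebraMap E (AlgebraicClosure E)).injective).1 h2.symm
    rw [rv_scale hP _ _ (j := j₀) hfj, h3, mul_zero]
  · have hρS : ρ ∈ S := by
      have h2 := MvPolynomial.comp_aeval_apply (fun i => (⟨v i, hvS i⟩ : S)) S.val R'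
      have h3 : (fun i => S.val (⟨v i, hvS i⟩ : S)) = v := rfl
      rw [h3] at h2
      rw [hρ, ← h2]
      exact Subtype.property _
    have h1 := hev R' ⟨ρ, hρS⟩ hρ
    have h2 : (⟨ρ, hρS⟩ : S) * ⟨ρ⁻¹, (hmemS _).2 hρT⟩ = 1 :=
      Subtype.ext (mul_inv_cancel₀ hρ0)
    have h3 := congrArg ψ' h2
    rw [map_mul, map_one] at h3
    have h4 : ψ' ⟨ρ, hρS⟩ ≠ 0 := left_ne_zero_of_mul (by rw [h3]; exact one_ne_zero)
    rw [h1] at h4
    have h5 : rv (cst E (Sum.elim c t)) (fun j => f j / f j₀) R' ≠ 0 := fun h0 => h4 (by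
      rw [h0, map_zero])
    rw [rv_scale hR'w _ _ (j := j₀) hfj]
    exact mul_ne_zero (pow_ne_zero _ hfj) h5

end Pool.Agent.J6H74.FMCst
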